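import Pool.Agent.W37.SG.Stm2

/-! Subtask SG-IRR for helper37. -/

namespace Pool.Agent.W804.SG.IRR

open Pool.Agent.W37.SG

section

variable {p α : ℕ} [Fact p.Prime] {V : Type} [AddCommGroup V] [Module ℚ_[p] V]
  {C : ℤ → AddSubgroup V} {𝒢 : Set (V →ₗ[ℚ_[p]] V)}

lemma p_ne (p : ℕ) [Fact p.Prime] : (p : ℚ_[p]) ≠ 0 := by
  exact_mod_cast (Fact.out : p.Prime).ne_zero

lemma anti (h : ChainHyp p α V C 𝒢) : Antitone C := antitone_int_of_succ_le h.anti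

lemma per1 (h : ChainHyp p α V C 𝒢) (n : ℤ) (z : V) :
    (p : ℚ_[p]) • z ∈ C (n + α) ↔ z ∈ C n := by
  rw [h.per]
  constructor
  · rintro ⟨y, hy, hzy⟩
    have : z = y := smul_right_injective V (p_ne p) hzy
    rwa [this]
  · intro hz
    exact ⟨z, hz, rfl⟩

lemma perk (h : ChainHyp p α V C 𝒢) (k : ℕ) (n : ℤ) (z : V) :
    (p : ℚ_[p]) ^ k • z ∈ C (n + k * α) ↔ z ∈ C n := by
  induction k with
  | zero => simp
  | succ k ih =>
    have : n + ((k + 1 : ℕ) : ℤ) * α = n + k * α + α := by push_cast; ring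
    rw [this, pow_succ', mul_smul, per1 h, ih]

lemma exists_level (h : ChainHyp p α V C 𝒢) {x : V} (hx : x ≠ 0) :
    ∃ n : ℤ, x ∈ C n ∧ x ∉ C (n + 1) := by
  obtain ⟨b, hb⟩ := h.basis
  have hp1 : (1 : ℝ) < p := by exact_mod_cast (Fact.out : p.Prime).one_lt
  have hp0 : (0 : ℝ) < p := by linarith
  -- lower bound
  have hlow : ∃ n : ℤ, x ∈ C n := by
    obtain ⟨m, hm⟩ : ∃ m : ℕ, ∀ i, ‖b.repr x i‖ ≤ (p : ℝ) ^ m := by
      have : ∀ i, ∃ m : ℕ, ‖b.repr x i‖ ≤ (p : ℝ) ^ m := by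
        intro i
        obtain ⟨m, hm⟩ := pow_unbounded_of_one_lt ‖b.repr x i‖ hp1
        exact ⟨m, hm.le⟩
      choose f hf using this
      refine ⟨Finset.univ.sup f, fun i => (hf i).trans ?_⟩
      exact pow_le_pow_right₀ hp1.le (Finset.le_sup (Finset.mem_univ i))
    refine ⟨0 - m * α, ?_⟩
    rw [← perk h m]
    have e : (0 : ℤ) - m * α + m * α = 0 := by ring
    rw [e, hb]
    intro i
    rw [map_smul, Finsupp.smul_apply, smul_eq_mul, norm_mul, norm_pow, Padic.norm_p]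
    calc ((p : ℝ)⁻¹) ^ m * ‖b.repr x i‖ ≤ ((p : ℝ)⁻¹) ^ m * (p : ℝ) ^ m :=
          mul_le_mul_of_nonneg_left (hm i) (by positivity)
      _ = 1 := by rw [← mul_pow, inv_mul_cancel₀ hp0.ne', one_pow]
  -- upper bound
  have hup : ∃ B : ℤ, ∀ n : ℤ, x ∈ C n → n ≤ B := by
    have hne : ∃ i, b.repr x i ≠ 0 := by
      by_contra hcon
      push Not at hcon
      apply hx
      have : b.repr x = 0 := by
        ext i
        exact hcon i
      simpa using this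
    obtain ⟨i, hi⟩ := hne
    have hi' : 0 < ‖b.repr x i‖ := norm_pos_iff.2 hi
    obtain ⟨m, hm⟩ := pow_unbounded_of_one_lt (‖b.repr x i‖⁻¹) hp1
    refine ⟨m * α, ?_⟩
    intro n hn
    by_contra hcon
    push Not at hcon
    have h1 : x ∈ C (0 + m * α) := by
      rw [zero_add]
      exact anti h hcon.le hn
    have hpm : (p : ℚ_[p]) ^ m ≠ 0 := pow_ne_zero _ (p_ne p)
    have h2 : x = (p : ℚ_[p]) ^ m • (((p : ℚ_[p]) ^ m)⁻¹ • x) := by
      rw [smul_smul, mul_inv_cancel₀ hpm, one_smul]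
    rw [h2, perk h m, hb] at h1
    have h3 := h1 i
    rw [map_smul, Finsupp.smul_apply, smul_eq_mul, norm_mul, norm_inv, norm_pow,
      Padic.norm_p] at h3
    have h4 : (((p : ℝ)⁻¹) ^ m)⁻¹ = (p : ℝ) ^ m := by
      rw [inv_pow, inv_inv]
    rw [h4] at h3
    have h5 : ‖b.repr x i‖⁻¹ * ‖b.repr x i‖ < (p : ℝ) ^ m * ‖b.repr x i‖ :=
      mul_lt_mul_of_pos_right hm hi'
    rw [inv_mul_cancel₀ hi'.ne'] at h5
    linarith
  obtain ⟨B, hB⟩ := hup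
  obtain ⟨n, hn, hmax⟩ := Int.exists_greatest_of_bdd (P := fun n => x ∈ C n) ⟨B, hB⟩ hlow
  refine ⟨n, hn, fun hcon => ?_⟩
  have := hmax _ hcon
  omega

/-- `W` contains elements of all levels. -/
lemma all_levels (h : ChainHyp p α V C 𝒢) (hα : 1 ≤ α) {W : Submodule ℚ_[p] V}
    (hW : ∀ g ∈ 𝒢, ∀ w ∈ W, g w ∈ W) {x : V} (hxW : x ∈ W) (hx : x ≠ 0) (r : ℤ) :
    ∃ w ∈ W, w ∈ C r ∧ w ∉ C (r + 1) := by
  obtain ⟨n, hn1, hn2⟩ := exists_level h hx
  have hk : ∀ k : ℕ, ∃ w ∈ W, w ∈ C (n + k) ∧ w ∉ C (n + k + 1) := by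
    intro k
    induction k with
    | zero => exact ⟨x, hxW, by simpa using hn1, by simpa using hn2⟩
    | succ k ih =>
      obtain ⟨w, hw, h1, h2⟩ := ih
      obtain ⟨g, hg, hg2⟩ := h.uni _ w h1 h2
      refine ⟨g w - w, W.sub_mem (hW g hg w hw) hw, ?_, ?_⟩
      · have := h.nil g hg _ w h1
        have e : n + ((k + 1 : ℕ) : ℤ) = n + k + 1 := by push_cast; ring
        rwa [e]
      · have e : n + ((k + 1 : ℕ) : ℤ) + 1 = n + k + 2 := by push_cast; ring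
        rwa [e]
  -- scaling
  obtain ⟨k, hk2⟩ : ∃ k : ℕ, n ≤ r + k * α := by
    refine ⟨(n - r).toNat, ?_⟩
    have h1 : n - r ≤ ((n - r).toNat : ℤ) := Int.self_le_toNat _
    have h2 : ((n - r).toNat : ℤ) * 1 ≤ ((n - r).toNat : ℤ) * α :=
      mul_le_mul_of_nonneg_left (by exact_mod_cast hα) (by positivity)
    linarith
  obtain ⟨j, hj⟩ := Int.eq_ofNat_of_zero_le (sub_nonneg.2 hk2)
  obtain ⟨w, hw, h1, h2⟩ := hk j
  have hpk : (p : ℚ_[p]) ^ k ≠ 0 := pow_ne_zero _ (p_ne p)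
  have h3 : w = (p : ℚ_[p]) ^ k • (((p : ℚ_[p]) ^ k)⁻¹ • w) := by
    rw [smul_smul, mul_inv_cancel₀ hpk, one_smul]
  have e1 : n + (j : ℤ) = r + k * α := by linarith
  have e2 : n + (j : ℤ) + 1 = (r + 1) + k * α := by linarith
  refine ⟨((p : ℚ_[p]) ^ k)⁻¹ • w, W.smul_mem _ hw, ?_, ?_⟩
  · rw [e1, h3, perk h k] at h1
    exact h1
  · rw [e2, h3, perk h k] at h2
    exact h2

/-- `C 0` is contained in `W + C k`. -/
lemma approx (h : ChainHyp p α V C 𝒢) (hα : 1 ≤ α) {W : Submodule ℚ_[p] V}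
    (hW : ∀ g ∈ 𝒢, ∀ w ∈ W, g w ∈ W) {x : V} (hxW : x ∈ W) (hx : x ≠ 0) (y : V)
    (hy : y ∈ C 0) (k : ℕ) : ∃ w ∈ W, y - w ∈ C k := by
  induction k with
  | zero => exact ⟨0, W.zero_mem, by simpa using hy⟩
  | succ k ih =>
    obtain ⟨w, hw, h1⟩ := ih
    obtain ⟨v, hv, h2, h3⟩ := all_levels h hα hW hxW hx k
    obtain ⟨j, hj⟩ := h.step k v h2 h3 (y - w) h1
    refine ⟨w + j • v, W.add_mem hw (W.smul_of_tower_mem j hv), ?_⟩
    have e : y - (w + j • v) = y - w - j • v := by abel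
    rw [e]
    exact_mod_cast hj

end

theorem main : Pool.Agent.W37.SG.S_IRR := by
  intro p α _ V _ _ C 𝒢 hα h W hW
  by_cases hbot : W = ⊥
  · exact Or.inl hbot
  right
  obtain ⟨x, hxW, hx⟩ := W.exists_mem_ne_zero_of_ne_bot hbot
  by_contra htop
  obtain ⟨b, hb⟩ := h.basis
  -- a functional vanishing on `W`
  obtain ⟨φ, hφ, hφW⟩ := W.exists_le_ker_of_lt_top (lt_top_iff_ne_top.2 htop)
  have hp1 : (1 : ℝ) < p := by exact_mod_cast (Fact.out : p.Prime).one_lt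
  have hp0 : (0 : ℝ) < p := by linarith
  haveI : Nonempty (Fin α) := ⟨⟨0, hα⟩⟩
  obtain ⟨i, hi⟩ := Finite.exists_max (fun i => ‖φ (b i)‖)
  have hpos : 0 < ‖φ (b i)‖ := by
    by_contra hcon
    apply hφ
    apply b.ext
    intro j
    have h1 : ‖φ (b j)‖ ≤ 0 := (hi j).trans (not_lt.1 hcon)
    simpa using h1
  have hbound : ∀ y ∈ C 0, ‖φ y‖ ≤ ‖φ (b i)‖ := by
    intro y hy
    have h1 : φ y = ∑ j, b.repr y j * φ (b j) := by
      have e := congrArg φ (b.sum_repr y)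
      rw [map_sum] at e
      rw [← e]
      refine Finset.sum_congr rfl fun j _ => ?_
      rw [map_smul, smul_eq_mul]
    rw [h1]
    refine IsUltrametricDist.norm_sum_le_of_forall_le_of_nonneg hpos.le ?_
    intro j _
    rw [norm_mul]
    have h2 := (hb y).1 hy j
    calc ‖b.repr y j‖ * ‖φ (b j)‖ ≤ 1 * ‖φ (b i)‖ :=
          mul_le_mul h2 (hi j) (norm_nonneg _) zero_le_one
      _ = _ := one_mul _
  have hbi : b i ∈ C 0 := by
    rw [hb]
    intro j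
    rw [b.repr_self, Finsupp.single_apply]
    split_ifs <;> simp
  obtain ⟨w, hw, h1⟩ := approx h hα hW hxW hx (b i) hbi α
  have h2 : b i - w ∈ C (0 + α) := by rwa [zero_add]
  rw [h.per] at h2
  obtain ⟨y, hy, hyw⟩ := h2
  have h3 : φ (b i) = (p : ℚ_[p]) * φ y := by
    have e1 : b i = w + (p : ℚ_[p]) • y := by rw [← hyw]; abel
    have e2 : φ w = 0 := hφW hw
    rw [e1, map_add, e2, map_smul, zero_add, smul_eq_mul]
  have h4 : ‖φ (b i)‖ ≤ (p : ℝ)⁻¹ * ‖φ (b i)‖ := by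
    calc ‖φ (b i)‖ = (p : ℝ)⁻¹ * ‖φ y‖ := by rw [h3, norm_mul, Padic.norm_p]
      _ ≤ (p : ℝ)⁻¹ * ‖φ (b i)‖ := mul_le_mul_of_nonneg_left (hbound y hy) (by positivity)
  have h5 : (p : ℝ)⁻¹ < 1 := inv_lt_one_of_one_lt₀ hp1
  nlinarith

end Pool.Agent.W804.SG.IRR
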